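import Pool.Agent.P8H14.CN.Stm

/-!
# Project CN: package LBD, few large values of `L(1, χ_D)`
-/

set_option autoImplicit false

namespace Pool.Agent.P8H46.CN

open Finset Filter Pool.Agent.H38R2.CG Pool.Agent.P8H14.CN
open scoped Classical

noncomputable section

/-- the sum over the small numbers -/
lemma head_le (hM : S_MUL) (D z : ℕ) :
    ∑ n ∈ Icc 1 z, (chi (D : ℤ) n : ℝ) / n ≤ 1 + Real.log z := by
  have h1 : ∑ n ∈ Icc 1 z, (chi (D : ℤ) n : ℝ) / n ≤ ∑ n ∈ Icc 1 z, ((n : ℝ))⁻¹ := by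
    refine Finset.sum_le_sum fun n _ => ?_
    have h2 : (chi (D : ℤ) n : ℝ) ≤ 1 := by
      have := (abs_le.1 (hM.2.1 (D : ℤ) n)).2
      exact_mod_cast this
    rw [div_eq_mul_inv]
    exact mul_le_of_le_one_left (inv_nonneg.2 (Nat.cast_nonneg n)) h2
  have h3 : ((harmonic z : ℚ) : ℝ) = ∑ n ∈ Icc 1 z, ((n : ℝ))⁻¹ := by
    rw [harmonic_eq_sum_Icc]
    push_cast
    rfl
  have h4 := harmonic_le_one_add_log z
  rw [h3] at h4
  exact h1.trans h4

lemma big (hM : S_MUL) {C : ℝ} (hC : 0 < C) (h3 : ∀ D : ℕ, IsFund D → ∀ N : ℕ, 1 ≤ N →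
    |Lone D - ∑ n ∈ Finset.Icc 1 N, (chi D n : ℝ) / n| ≤ C * √(D : ℝ) * Real.log D / N)
    {η t : ℝ} (hη : 0 < η) (hη1 : η ≤ 1) {X z N : ℕ} (hX : 2 ≤ X)
    (ht : t = Real.log X ^ (η / 2)) (ht4 : 4 ≤ t) (hz1 : 1 ≤ z) (hz : (z : ℝ) ≤ Real.exp t)
    (hzN : z ≤ N) (hN : (X : ℝ) ^ (3 / 4 : ℝ) ≤ 2 * N)
    (hXC : 2 * C * Real.log X ≤ (X : ℝ) ^ (1 / 4 : ℝ)) {D : ℕ} (hD : IsFund D) (hDX : D ≤ X)
    (hD2 : √(X : ℝ) < D) (hL : Real.log D ^ η < Lone D) :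
    1 ≤ (∑ n ∈ Ioc z N, (chi (D : ℤ) n : ℝ) / n) ^ 2 := by
  have hX1 : (1 : ℝ) < X := by
    have : 1 < X := by omega
    exact_mod_cast this
  have hX0 : (0 : ℝ) < X := by linarith
  have hlX : 0 < Real.log X := Real.log_pos hX1
  have hN1 : 1 ≤ N := hz1.trans hzN
  have hN0 : (0 : ℝ) < N := by exact_mod_cast hN1
  have hs1 : 1 ≤ √(X : ℝ) := Real.one_le_sqrt.2 hX1.le
  have hD0 : (0 : ℝ) < D := by linarith
  have hDX' : (D : ℝ) ≤ X := by exact_mod_cast hDX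
  have h := h3 D hD N hN1
  -- the remainder
  have hrem : C * √(D : ℝ) * Real.log D / N ≤ 1 := by
    rw [div_le_one hN0]
    have a1 : √(D : ℝ) ≤ √(X : ℝ) := Real.sqrt_le_sqrt hDX'
    have a2 : Real.log D ≤ Real.log X := Real.log_le_log hD0 hDX'
    have a3 : C * √(D : ℝ) * Real.log D ≤ C * √(X : ℝ) * Real.log X := by
      have b1 : C * √(D : ℝ) ≤ C * √(X : ℝ) := mul_le_mul_of_nonneg_left a1 hC.le
      calc C * √(D : ℝ) * Real.log D ≤ C * √(D : ℝ) * Real.log X :=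
            mul_le_mul_of_nonneg_left a2 (by positivity)
        _ ≤ C * √(X : ℝ) * Real.log X := mul_le_mul_of_nonneg_right b1 hlX.le
    have a4 : √(X : ℝ) * (X : ℝ) ^ (1 / 4 : ℝ) = (X : ℝ) ^ (3 / 4 : ℝ) := by
      rw [Real.sqrt_eq_rpow, ← Real.rpow_add hX0]
      norm_num
    have a5 : √(X : ℝ) * (2 * C * Real.log X) ≤ √(X : ℝ) * (X : ℝ) ^ (1 / 4 : ℝ) :=
      mul_le_mul_of_nonneg_left hXC (by positivity)
    rw [a4] at a5
    have a6 : √(X : ℝ) * (2 * C * Real.log X) = 2 * (C * √(X : ℝ) * Real.log X) := by ring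
    linarith
  -- the size of `(log D) ^ η`
  have hlog : t ^ 2 / 2 ≤ Real.log D ^ η := by
    have b1 : Real.log X / 2 ≤ Real.log D := by
      rw [← Real.log_sqrt hX0.le]
      exact Real.log_le_log (by linarith) hD2.le
    have b2 : (Real.log X / 2) ^ η ≤ Real.log D ^ η :=
      Real.rpow_le_rpow (by positivity) b1 hη.le
    have b3 : (Real.log X / 2) ^ η = Real.log X ^ η / 2 ^ η := Real.div_rpow hlX.le (by norm_num) η
    have b4 : (2 : ℝ) ^ η ≤ 2 := by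
      have := Real.rpow_le_rpow_of_exponent_le (show (1 : ℝ) ≤ 2 by norm_num) hη1
      rwa [Real.rpow_one] at this
    have b5 : t ^ 2 = Real.log X ^ η := by
      rw [ht, ← Real.rpow_natCast, ← Real.rpow_mul hlX.le]
      congr 1
      push_cast
      ring
    rw [b5]
    refine le_trans ?_ b2
    rw [b3]
    exact div_le_div_of_nonneg_left (by positivity) (by positivity) b4
  -- splitting
  have hI : ∀ k, Icc 1 k = Ioc 0 k := fun k => by
    ext a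
    rw [Finset.mem_Icc, Finset.mem_Ioc]
    omega
  have hsplit : ∑ n ∈ Icc 1 N, (chi (D : ℤ) n : ℝ) / n = ∑ n ∈ Icc 1 z, (chi (D : ℤ) n : ℝ) / n +
      ∑ n ∈ Ioc z N, (chi (D : ℤ) n : ℝ) / n := by
    rw [hI, hI, Finset.sum_Ioc_consecutive _ (Nat.zero_le z) hzN]
  have hhead := head_le hM D z
  have hlz : Real.log z ≤ t := by
    have := Real.log_le_log (by exact_mod_cast hz1) hz
    rwa [Real.log_exp] at this
  have h5 := (abs_le.1 h).2
  rw [hsplit] at h5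
  have h6 : 1 ≤ ∑ n ∈ Ioc z N, (chi (D : ℤ) n : ℝ) / n := by nlinarith
  exact one_le_pow₀ h6

lemma decay {X t : ℝ} (hX : 0 < X) (hL : 2 ≤ Real.log X) (ht : t ≤ (Real.log X + 1) / 2) :
    X ^ (3 / 4 : ℝ) * Real.log X ≤ 16 * (X * Real.exp (-(t / 4))) := by
  have h1 : X ^ (3 / 4 : ℝ) = X * Real.exp (-(Real.log X / 4)) := by
    rw [Real.rpow_def_of_pos hX]
    nth_rewrite 2 [← Real.exp_log hX]
    rw [← Real.exp_add]
    congr 1
    ring
  have h2 : Real.log X ≤ 16 * Real.exp ((Real.log X - 1) / 8) := by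
    have := Real.add_one_le_exp ((Real.log X - 1) / 8)
    linarith
  have h3 : Real.exp (-(Real.log X / 4)) * Real.log X ≤ 16 * Real.exp (-(t / 4)) := by
    calc Real.exp (-(Real.log X / 4)) * Real.log X ≤
          Real.exp (-(Real.log X / 4)) * (16 * Real.exp ((Real.log X - 1) / 8)) :=
          mul_le_mul_of_nonneg_left h2 (Real.exp_pos _).le
      _ = 16 * Real.exp (-((Real.log X + 1) / 8)) := by
          rw [mul_left_comm, ← Real.exp_add]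
          congr 2
          ring
      _ ≤ 16 * Real.exp (-(t / 4)) := by
          refine mul_le_mul_of_nonneg_left (Real.exp_le_exp.2 ?_) (by norm_num)
          linarith
  calc X ^ (3 / 4 : ℝ) * Real.log X = X * (Real.exp (-(Real.log X / 4)) * Real.log X) := by
        rw [h1]; ring
    _ ≤ X * (16 * Real.exp (-(t / 4))) := mul_le_mul_of_nonneg_left h3 hX.le
    _ = _ := by ring

theorem lbd (hM : S_MUL) (hS : S_SEC) (h3 : P_N3a) : S_LBD := by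
  intro η hη hη1
  obtain ⟨C₁, hC₁, h3'⟩ := h3
  obtain ⟨C₂, hC₂, hS'⟩ := hS
  have hev : ∀ᶠ X : ℕ in atTop, 4 ≤ Real.log X ^ (η / 2) ∧
      2 * C₁ * Real.log X ≤ (X : ℝ) ^ (1 / 4 : ℝ) ∧ 2 ≤ Real.log X := by
    have t1 : Tendsto (fun X : ℕ => Real.log (X : ℝ)) atTop atTop :=
      Real.tendsto_log_atTop.comp tendsto_natCast_atTop_atTop
    have t2 : Tendsto (fun X : ℕ => Real.log (X : ℝ) ^ (η / 2)) atTop atTop :=
      (tendsto_rpow_atTop (half_pos hη)).comp t1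
    have t3 := (isLittleO_log_rpow_atTop (show (0 : ℝ) < 1 / 4 by norm_num)).bound
      (show 0 < 1 / (2 * C₁) by positivity)
    have t4 : ∀ᶠ X : ℕ in atTop, ‖Real.log (X : ℝ)‖ ≤ 1 / (2 * C₁) * ‖(X : ℝ) ^ (1 / 4 : ℝ)‖ :=
      tendsto_natCast_atTop_atTop.eventually t3
    filter_upwards [t2.eventually_ge_atTop 4, t4, t1.eventually_ge_atTop 2] with X a b c
    refine ⟨a, ?_, c⟩
    rw [Real.norm_eq_abs, Real.norm_eq_abs, abs_of_nonneg (by linarith : (0 : ℝ) ≤ Real.log X),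
      abs_of_nonneg (by positivity : (0 : ℝ) ≤ (X : ℝ) ^ (1 / 4 : ℝ))] at b
    calc 2 * C₁ * Real.log X ≤ 2 * C₁ * (1 / (2 * C₁) * (X : ℝ) ^ (1 / 4 : ℝ)) :=
          mul_le_mul_of_nonneg_left b (by positivity)
      _ = (X : ℝ) ^ (1 / 4 : ℝ) := by field_simp
  obtain ⟨X₀, hX₀⟩ := eventually_atTop.1 hev
  refine ⟨Real.exp (Real.log ((X₀ : ℝ) + 1) ^ (η / 2) / 4) + (16 + 18 * C₂), ?_⟩
  intro X hX
  have hX1 : (1 : ℝ) < X := by
    have : 1 < X := by omega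
    exact_mod_cast this
  have hX0 : (0 : ℝ) < X := by linarith
  have hlX : 0 < Real.log X := Real.log_pos hX1
  obtain ⟨t, ht⟩ : ∃ t : ℝ, t = Real.log X ^ (η / 2) := ⟨_, rfl⟩
  rw [← ht]
  obtain ⟨E, hE⟩ : ∃ E : ℝ, E = Real.exp (-(t / 4)) := ⟨_, rfl⟩
  have hE0 : 0 < E := by rw [hE]; exact Real.exp_pos _
  rw [← hE]
  obtain ⟨T, hT⟩ : ∃ T : Finset ℕ,
    T = (Icc 2 X).filter (fun D => IsFund D ∧ Real.log D ^ η < Lone D) := ⟨_, rfl⟩
  rw [← hT]
  have hTX : (T.card : ℝ) ≤ X := by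
    have h1 : T.card ≤ (Icc 2 X).card := by rw [hT]; exact Finset.card_filter_le _ _
    rw [Nat.card_Icc] at h1
    have h2 : T.card ≤ X := by omega
    exact_mod_cast h2
  by_cases hXX : X < X₀
  · have h1 : t ≤ Real.log ((X₀ : ℝ) + 1) ^ (η / 2) := by
      rw [ht]
      refine Real.rpow_le_rpow hlX.le (Real.log_le_log hX0 ?_) (by positivity)
      have : (X : ℝ) ≤ X₀ := by exact_mod_cast hXX.le
      linarith
    have h2 : 1 ≤ Real.exp (Real.log ((X₀ : ℝ) + 1) ^ (η / 2) / 4) * E := by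
      rw [hE, ← Real.exp_add]
      apply Real.one_le_exp
      linarith
    have h3 : 0 ≤ (16 + 18 * C₂) * X * E := by positivity
    have h4 := mul_le_mul_of_nonneg_left h2 hX0.le
    linarith
  push Not at hXX
  obtain ⟨ht4, hXC, hL2⟩ := hX₀ X hXX
  rw [← ht] at ht4
  have htL : t ≤ (Real.log X + 1) / 2 := by
    have h1 : t ≤ Real.log X ^ (1 / 2 : ℝ) := by
      rw [ht]
      exact Real.rpow_le_rpow_of_exponent_le (by linarith) (by linarith)
    rw [← Real.sqrt_eq_rpow] at h1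
    have h2 := Real.sq_sqrt hlX.le
    nlinarith [sq_nonneg (√(Real.log X) - 1)]
  obtain ⟨z, hz⟩ : ∃ z : ℕ, z = ⌊Real.exp t⌋₊ := ⟨_, rfl⟩
  obtain ⟨N, hN⟩ : ∃ N : ℕ, N = ⌊(X : ℝ) ^ (3 / 4 : ℝ)⌋₊ := ⟨_, rfl⟩
  have hexp1 : 1 ≤ Real.exp t := Real.one_le_exp (by linarith)
  have hz1 : 1 ≤ z := by
    rw [hz]
    exact Nat.le_floor (by exact_mod_cast hexp1)
  have hzle : (z : ℝ) ≤ Real.exp t := by rw [hz]; exact Nat.floor_le (Real.exp_pos _).le
  have hzge : Real.exp t ≤ 2 * z := by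
    have h1 := Nat.lt_floor_add_one (Real.exp t)
    rw [← hz] at h1
    have h2 : (1 : ℝ) ≤ z := by exact_mod_cast hz1
    linarith
  have hX34 : Real.exp t ≤ (X : ℝ) ^ (3 / 4 : ℝ) := by
    rw [Real.rpow_def_of_pos hX0]
    apply Real.exp_le_exp.2
    linarith
  have hzN : z ≤ N := by
    rw [hz, hN]
    exact Nat.floor_le_floor hX34
  have hNle : (N : ℝ) ≤ (X : ℝ) ^ (3 / 4 : ℝ) := by rw [hN]; exact Nat.floor_le (by positivity)
  have hNge : (X : ℝ) ^ (3 / 4 : ℝ) ≤ 2 * N := by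
    have h1 := Nat.lt_floor_add_one ((X : ℝ) ^ (3 / 4 : ℝ))
    rw [← hN] at h1
    have h2 : (1 : ℝ) ≤ N := by exact_mod_cast hz1.trans hzN
    linarith
  -- the count
  have hsub : T ⊆ Icc 1 ⌊√(X : ℝ)⌋₊ ∪ T.filter (fun D : ℕ => √(X : ℝ) < D) := by
    intro D hD
    rw [Finset.mem_union, Finset.mem_filter]
    by_cases h : √(X : ℝ) < D
    · exact Or.inr ⟨hD, h⟩
    · left
      push Not at h
      rw [hT, Finset.mem_filter, Finset.mem_Icc] at hD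
      rw [Finset.mem_Icc]
      exact ⟨by omega, Nat.le_floor h⟩
  have hcard : (T.card : ℝ) ≤ √(X : ℝ) + ((T.filter (fun D : ℕ => √(X : ℝ) < D)).card : ℝ) := by
    have h1 := (Finset.card_le_card hsub).trans (Finset.card_union_le _ _)
    rw [Nat.card_Icc, Nat.add_sub_cancel] at h1
    have h2 : (⌊√(X : ℝ)⌋₊ : ℝ) ≤ √(X : ℝ) := Nat.floor_le (Real.sqrt_nonneg _)
    have h3 : (T.card : ℝ) ≤ (⌊√(X : ℝ)⌋₊ : ℝ) +
        ((T.filter (fun D : ℕ => √(X : ℝ) < D)).card : ℝ) := by exact_mod_cast h1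
    linarith
  have hsec : ((T.filter (fun D : ℕ => √(X : ℝ) < D)).card : ℝ) ≤
      ∑ D ∈ Icc 1 X, (∑ n ∈ Ioc z N, (chi (D : ℤ) n : ℝ) / n) ^ 2 := by
    calc ((T.filter (fun D : ℕ => √(X : ℝ) < D)).card : ℝ)
        = ∑ D ∈ T.filter (fun D : ℕ => √(X : ℝ) < D), (1 : ℝ) := by simp
      _ ≤ ∑ D ∈ T.filter (fun D : ℕ => √(X : ℝ) < D),
          (∑ n ∈ Ioc z N, (chi (D : ℤ) n : ℝ) / n) ^ 2 := by
          refine Finset.sum_le_sum fun D hD => ?_
          rw [Finset.mem_filter, hT, Finset.mem_filter, Finset.mem_Icc] at hD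
          exact big hM hC₁ h3' hη hη1 hX ht ht4 hz1 hzle hzN hNge hXC hD.1.2.1 hD.1.1.2 hD.2
            hD.1.2.2
      _ ≤ ∑ D ∈ Icc 1 X, (∑ n ∈ Ioc z N, (chi (D : ℤ) n : ℝ) / n) ^ 2 := by
          refine Finset.sum_le_sum_of_subset_of_nonneg ?_ fun _ _ _ => sq_nonneg _
          intro D hD
          rw [Finset.mem_filter, hT, Finset.mem_filter, Finset.mem_Icc] at hD
          rw [Finset.mem_Icc]
          exact ⟨by omega, hD.1.1.2⟩
  have hS2 := hS' X z N hX hz1 hNle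
  have hz4 : (z : ℝ) ^ (-(1 / 4) : ℝ) ≤ 2 * E := by
    have hz0 : (0 : ℝ) < z := by exact_mod_cast hz1
    have h1 : (z : ℝ) ^ (-(1 / 4) : ℝ) ≤ (Real.exp t / 2) ^ (-(1 / 4) : ℝ) :=
      Real.rpow_le_rpow_of_nonpos (by positivity) (by linarith) (by norm_num)
    have h2 : (Real.exp t / 2) ^ (-(1 / 4) : ℝ) = E * (2 : ℝ) ^ (1 / 4 : ℝ) := by
      rw [Real.div_rpow (Real.exp_pos _).le (by norm_num), ← Real.exp_mul, Real.rpow_neg (by norm_num),
        div_inv_eq_mul, hE]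
      congr 2
      ring
    have h3 : (2 : ℝ) ^ (1 / 4 : ℝ) ≤ 2 := by
      have := Real.rpow_le_rpow_of_exponent_le (show (1 : ℝ) ≤ 2 by norm_num)
        (show (1 / 4 : ℝ) ≤ 1 by norm_num)
      rwa [Real.rpow_one] at this
    rw [h2] at h1
    refine h1.trans ?_
    rw [mul_comm]
    exact mul_le_mul_of_nonneg_right h3 hE0.le
  have hdec := decay hX0 hL2 htL
  rw [← hE] at hdec
  have hsq : √(X : ℝ) ≤ (X : ℝ) ^ (3 / 4 : ℝ) * Real.log X := by
    have h1 : √(X : ℝ) ≤ (X : ℝ) ^ (3 / 4 : ℝ) := by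
      rw [Real.sqrt_eq_rpow]
      exact Real.rpow_le_rpow_of_exponent_le hX1.le (by norm_num)
    have h2 : (0 : ℝ) ≤ (X : ℝ) ^ (3 / 4 : ℝ) := by positivity
    nlinarith
  have h7 : C₂ * (X * (z : ℝ) ^ (-(1 / 4) : ℝ) + (X : ℝ) ^ (3 / 4 : ℝ) * Real.log X) ≤
      C₂ * (X * (2 * E) + 16 * (X * E)) := by
    refine mul_le_mul_of_nonneg_left ?_ hC₂.le
    have := mul_le_mul_of_nonneg_left hz4 hX0.le
    linarith
  have h8 : 0 ≤ Real.exp (Real.log ((X₀ : ℝ) + 1) ^ (η / 2) / 4) * X * E := by positivity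
  have h9 : C₂ * (X * (2 * E) + 16 * (X * E)) = 18 * C₂ * X * E := by ring
  rw [h9] at h7
  calc (T.card : ℝ) ≤ 16 * (X * E) + 18 * C₂ * X * E := by linarith
    _ ≤ (Real.exp (Real.log ((X₀ : ℝ) + 1) ^ (η / 2) / 4) + (16 + 18 * C₂)) * X * E := by
        linarith

end

end Pool.Agent.P8H46.CN
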